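import Pool.Agent.Helper68.Fam.Goals

/-!
# Project FAM, packet ECON: edges lost by a deletion and by a contraction
-/

namespace NApexGraphs.Fam.Helper4

open SimpleGraph NApexGraphs NApexGraphs.Dom NApexGraphs.Fam

variable {V : Type} [DecidableEq V]

theorem eW_erase (G : SimpleGraph V) (W : Finset V) {x : V} (hx : x ∈ W) :
    eW G W = eW G (W.erase x) + 2 * degW G W x := by
  classical
  have h1 : ∀ v ∈ W.erase x, (W.filter (fun z => G.Adj v z)).card =
      ((W.erase x).filter (fun z => G.Adj v z)).card + (if G.Adj v x then 1 else 0) := by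
    intro v _
    rw [Finset.card_filter, Finset.card_filter, ← Finset.add_sum_erase W _ hx]
    exact Nat.add_comm _ _
  have h2 : (W.filter (fun z => G.Adj x z)).card =
      ∑ v ∈ W.erase x, (if G.Adj v x then 1 else 0) := by
    rw [Finset.card_filter, ← Finset.add_sum_erase W _ hx, if_neg (fun h => h.ne rfl), zero_add]
    exact Finset.sum_congr rfl fun v _ => by simp only [G.adj_comm]
  unfold eW degW
  rw [← Finset.add_sum_erase W _ hx, Finset.sum_congr rfl h1, Finset.sum_add_distrib, ← h2]
  ring

theorem eW_congr {G H : SimpleGraph V} {W : Finset V}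
    (h : ∀ v ∈ W, ∀ z ∈ W, (G.Adj v z ↔ H.Adj v z)) : eW G W = eW H W := by
  classical
  unfold eW
  refine Finset.sum_congr rfl fun v hv => ?_
  congr 1
  exact Finset.filter_congr fun z hz => h v hv z hz

theorem gECON : Goals.ECON := by
  intro V _ _ G W x y hx
  refine ⟨eW_erase G W hx, fun hy hxy => ?_⟩
  classical
  have hyx : y ≠ x := fun h => hxy.ne h.symm
  have hy' : y ∈ W.erase x := Finset.mem_erase.2 ⟨hyx, hy⟩
  have e1 := eW_erase G W hx
  have e2 := eW_erase G (W.erase x) hy'
  have e3 := eW_erase (addN G x y) (W.erase x) hy'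
  have e4 : eW (addN G x y) ((W.erase x).erase y) = eW G ((W.erase x).erase y) := by
    refine eW_congr fun v hv z hz => ?_
    have hvy := (Finset.mem_erase.1 hv).1
    have hzy := (Finset.mem_erase.1 hz).1
    constructor
    · rintro (h | ⟨h, -⟩ | ⟨h, -⟩)
      · exact h
      · exact absurd h hvy
      · exact absurd h hzy
    · exact fun h => Or.inl h
  have e5 : degW (addN G x y) (W.erase x) y + 1 + comN G W x y =
      degW G (W.erase x) y + degW G W x := by
    unfold degW comN
    rw [Finset.card_filter, Finset.card_filter, Finset.card_filter, Finset.card_filter,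
      ← Finset.add_sum_erase W (fun z => if G.Adj x z ∧ G.Adj y z then 1 else 0) hx,
      ← Finset.add_sum_erase W (fun z => if G.Adj x z then 1 else 0) hx,
      ← Finset.add_sum_erase (W.erase x) (fun z => if G.Adj x z ∧ G.Adj y z then 1 else 0) hy',
      ← Finset.add_sum_erase (W.erase x) (fun z => if G.Adj x z then 1 else 0) hy',
      ← Finset.add_sum_erase (W.erase x) (fun z => if (addN G x y).Adj y z then 1 else 0) hy',
      ← Finset.add_sum_erase (W.erase x) (fun z => if G.Adj y z then 1 else 0) hy']
    have n1 : ¬ (G.Adj x x ∧ G.Adj y x) := fun h => h.1.ne rfl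
    have n2 : ¬ (G.Adj x y ∧ G.Adj y y) := fun h => h.2.ne rfl
    have n3 : ¬ (addN G x y).Adj y y := fun h => h.ne rfl
    have n4 : ¬ G.Adj y y := fun h => h.ne rfl
    have n5 : ¬ G.Adj x x := fun h => h.ne rfl
    rw [if_neg n1, if_neg n2, if_neg n3, if_neg n4, if_neg n5, if_pos hxy]
    have key : ∑ z ∈ (W.erase x).erase y, (if (addN G x y).Adj y z then 1 else 0) +
        ∑ z ∈ (W.erase x).erase y, (if G.Adj x z ∧ G.Adj y z then 1 else 0) =
        ∑ z ∈ (W.erase x).erase y, (if G.Adj y z then 1 else 0) +
        ∑ z ∈ (W.erase x).erase y, (if G.Adj x z then 1 else 0) := by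
      rw [← Finset.sum_add_distrib, ← Finset.sum_add_distrib]
      refine Finset.sum_congr rfl fun z hz => ?_
      have hzy : z ≠ y := (Finset.mem_erase.1 hz).1
      have hadj : (addN G x y).Adj y z ↔ G.Adj y z ∨ G.Adj x z := by
        constructor
        · rintro (h | ⟨-, -, h⟩ | ⟨h, -⟩)
          · exact Or.inl h
          · exact Or.inr h
          · exact absurd h hzy
        · rintro (h | h)
          · exact Or.inl h
          · exact Or.inr (Or.inl ⟨rfl, hzy, h⟩)
      by_cases a : G.Adj y z <;> by_cases b : G.Adj x z <;> simp [hadj, a, b]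
    omega
  omega

end NApexGraphs.Fam.Helper4
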