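import Pool.Agent.Helper68.Fam.Goals

/-!
# Project FAM, packet ECOUNT: counting the adjacent pairs
-/

namespace NApexGraphs.Fam.Helper4

open SimpleGraph NApexGraphs NApexGraphs.Dom NApexGraphs.Fam

theorem gECOUNT : Goals.ECOUNT := by
  intro V _ G P C hC hadj
  classical
  have h1 : ((P ×ˢ P).filter (fun p => G.Adj p.1 p.2)).card = eW G P := by
    unfold eW
    rw [Finset.card_filter, Finset.sum_product]
    refine Finset.sum_congr rfl fun v _ => ?_
    rw [Finset.card_filter]
  have h2 : (C.biUnion (fun T => T.offDiag)).card ≤ 6 * C.card := by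
    refine le_trans Finset.card_biUnion_le ?_
    have h3 : ∀ T ∈ C, T.offDiag.card ≤ 6 := by
      intro T hT
      rw [Finset.offDiag_card]
      have h4 := hC T hT
      have h5 : T.card = 0 ∨ T.card = 1 ∨ T.card = 2 ∨ T.card = 3 := by omega
      rcases h5 with h5 | h5 | h5 | h5 <;> rw [h5] <;> norm_num
    refine le_trans (Finset.sum_le_sum h3) ?_
    rw [Finset.sum_const, smul_eq_mul, Nat.mul_comm]
  have h6 : P.offDiag ⊆ (P ×ˢ P).filter (fun p => G.Adj p.1 p.2) ∪
      C.biUnion (fun T => T.offDiag) := by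
    intro p hp
    obtain ⟨hp1, hp2, hne⟩ := Finset.mem_offDiag.1 hp
    rw [Finset.mem_union]
    by_cases h : ∀ T ∈ C, ¬ (p.1 ∈ T ∧ p.2 ∈ T)
    · exact Or.inl (Finset.mem_filter.2 ⟨Finset.mem_product.2 ⟨hp1, hp2⟩,
        hadj _ hp1 _ hp2 hne h⟩)
    · push Not at h
      obtain ⟨T, hT, ha, hb⟩ := h
      exact Or.inr (Finset.mem_biUnion.2 ⟨T, hT, Finset.mem_offDiag.2 ⟨ha, hb, hne⟩⟩)
  have h7 : P.offDiag.card = P.card * (P.card - 1) := by
    rw [Finset.offDiag_card, Nat.mul_sub, Nat.mul_one]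
  have h8 := Finset.card_le_card h6
  have h9 := Finset.card_union_le ((P ×ˢ P).filter (fun p => G.Adj p.1 p.2))
    (C.biUnion (fun T => T.offDiag))
  rw [← h7]
  omega

end NApexGraphs.Fam.Helper4
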