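import Pool.Agent.Helper68.Fam.Family

/-!
# Project FAM, packet UP: a nabla-Y move on `YG G F`
-/

namespace NApexGraphs.Fam.Helper4

open SimpleGraph NApexGraphs NApexGraphs.Dom NApexGraphs.Fam

/-- the bijection of the vertex sets -/
def upEquiv {V : Type} [DecidableEq V] (F : Finset (Finset V)) (T0 : Finset V) (h0 : T0 ∉ F) :
    Option (V ⊕ {T // T ∈ F}) ≃ V ⊕ {T // T ∈ insert T0 F} where
  toFun x := match x with
    | none => Sum.inr ⟨T0, Finset.mem_insert_self T0 F⟩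
    | some (Sum.inl x) => Sum.inl x
    | some (Sum.inr T) => Sum.inr ⟨T.1, Finset.mem_insert_of_mem T.2⟩
  invFun y := match y with
    | Sum.inl x => some (Sum.inl x)
    | Sum.inr T => if h : T.1 ∈ F then some (Sum.inr ⟨T.1, h⟩) else none
  left_inv := by
    rintro (_ | x | T)
    · simp only [dif_neg h0]
    · rfl
    · simp only [dif_pos T.2]
  right_inv := by
    rintro (x | T)
    · rfl
    · by_cases h : T.1 ∈ F
      · simp only [dif_pos h]
      · simp only [dif_neg h]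
        congr 1
        exact Subtype.ext ((Finset.mem_insert.1 T.2).resolve_right h).symm

theorem gUP : Goals.UP := by
  intro V _ _ G F hF a b c hab hac hbc
  rcases a with a | T
  swap
  · rcases b with b | T' <;> rcases c with c | T''
    · exact absurd ⟨hab, hac⟩ (hbc.2 T.1 T.2)
    · exact absurd hac id
    · exact absurd hab id
    · exact absurd hab id
  rcases b with b | T
  swap
  · rcases c with c | T''
    · exact absurd ⟨hab, hbc⟩ (hac.2 T.1 T.2)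
    · exact absurd hbc id
  rcases c with c | T
  swap
  · exact absurd ⟨hac, hbc⟩ (hab.2 T.1 T.2)
  replace hab : G.Adj a b ∧ ∀ T ∈ F, ¬ (a ∈ T ∧ b ∈ T) := hab
  replace hac : G.Adj a c ∧ ∀ T ∈ F, ¬ (a ∈ T ∧ c ∈ T) := hac
  replace hbc : G.Adj b c ∧ ∀ T ∈ F, ¬ (b ∈ T ∧ c ∈ T) := hbc
  have hmem : ∀ x : V, x ∈ ({a, b, c} : Finset V) ↔ x = a ∨ x = b ∨ x = c := by
    intro x; simp only [Finset.mem_insert, Finset.mem_singleton]
  have hcov : ∀ x ∈ ({a, b, c} : Finset V), ∀ y ∈ ({a, b, c} : Finset V), x ≠ y →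
      G.Adj x y ∧ ∀ T ∈ F, ¬ (x ∈ T ∧ y ∈ T) := by
    intro x hx y hy hxy
    rw [hmem] at hx hy
    rcases hx with rfl | rfl | rfl <;> rcases hy with rfl | rfl | rfl
    · exact absurd rfl hxy
    · exact hab
    · exact hac
    · exact ⟨hab.1.symm, fun T hT h => hab.2 T hT h.symm⟩
    · exact absurd rfl hxy
    · exact hbc
    · exact ⟨hac.1.symm, fun T hT h => hac.2 T hT h.symm⟩
    · exact ⟨hbc.1.symm, fun T hT h => hbc.2 T hT h.symm⟩
    · exact absurd rfl hxy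
  have ha0 : a ∈ ({a, b, c} : Finset V) := (hmem a).2 (Or.inl rfl)
  have hb0 : b ∈ ({a, b, c} : Finset V) := (hmem b).2 (Or.inr (Or.inl rfl))
  have h0 : ({a, b, c} : Finset V) ∉ F := fun h => hab.2 _ h ⟨ha0, hb0⟩
  have hpair : ∀ T ∈ F, (({a, b, c} : Finset V) ∩ T).card ≤ 1 := by
    intro T hT
    rw [Finset.card_le_one]
    intro x hx y hy
    by_contra hxy
    rw [Finset.mem_inter] at hx hy
    exact (hcov x hx.1 y hy.1 hxy).2 T hT ⟨hx.2, hy.2⟩
  refine ⟨insert {a, b, c} F, ⟨?_, ?_, ?_⟩, ⟨⟨upEquiv F {a, b, c} h0, ?_⟩⟩⟩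
  · intro T hT
    rcases Finset.mem_insert.1 hT with rfl | hT
    · exact Finset.card_eq_three.2 ⟨a, b, c, hab.1.ne, hac.1.ne, hbc.1.ne, rfl⟩
    · exact hF.card T hT
  · intro T hT x hx y hy hxy
    rcases Finset.mem_insert.1 hT with rfl | hT
    · exact (hcov x hx y hy hxy).1
    · exact hF.clique T hT x hx y hy hxy
  · intro T hT T' hT' hne
    rcases Finset.mem_insert.1 hT with rfl | hT <;> rcases Finset.mem_insert.1 hT' with rfl | hT'
    · exact absurd rfl hne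
    · exact hpair T' hT'
    · rw [Finset.inter_comm]; exact hpair T hT
    · exact hF.pair T hT T' hT' hne
  · intro x y
    rcases x with _ | p | T <;> rcases y with _ | q | T'
    · exact Iff.rfl
    · change q ∈ ({a, b, c} : Finset V) ↔
        ((Sum.inl q : V ⊕ {T // T ∈ F}) = Sum.inl a ∨ (Sum.inl q : V ⊕ {T // T ∈ F}) = Sum.inl b ∨
          (Sum.inl q : V ⊕ {T // T ∈ F}) = Sum.inl c)
      rw [hmem, Sum.inl.injEq, Sum.inl.injEq, Sum.inl.injEq]
    · change False ↔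
        ((Sum.inr T' : V ⊕ {T // T ∈ F}) = Sum.inl a ∨ (Sum.inr T' : V ⊕ {T // T ∈ F}) = Sum.inl b ∨
          (Sum.inr T' : V ⊕ {T // T ∈ F}) = Sum.inl c)
      simp
    · change p ∈ ({a, b, c} : Finset V) ↔
        ((Sum.inl p : V ⊕ {T // T ∈ F}) = Sum.inl a ∨ (Sum.inl p : V ⊕ {T // T ∈ F}) = Sum.inl b ∨
          (Sum.inl p : V ⊕ {T // T ∈ F}) = Sum.inl c)
      rw [hmem, Sum.inl.injEq, Sum.inl.injEq, Sum.inl.injEq]
    · change (G.Adj p q ∧ ∀ T ∈ insert ({a, b, c} : Finset V) F, ¬ (p ∈ T ∧ q ∈ T)) ↔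
        (G.Adj p q ∧ ∀ T ∈ F, ¬ (p ∈ T ∧ q ∈ T)) ∧
        ¬ (((Sum.inl p : V ⊕ {T // T ∈ F}) = Sum.inl a ∨ (Sum.inl p : V ⊕ {T // T ∈ F}) = Sum.inl b ∨
          (Sum.inl p : V ⊕ {T // T ∈ F}) = Sum.inl c) ∧
          ((Sum.inl q : V ⊕ {T // T ∈ F}) = Sum.inl a ∨ (Sum.inl q : V ⊕ {T // T ∈ F}) = Sum.inl b ∨
          (Sum.inl q : V ⊕ {T // T ∈ F}) = Sum.inl c))
      simp only [Sum.inl.injEq, ← hmem, Finset.forall_mem_insert]
      tauto
    · change p ∈ T'.1 ↔ p ∈ T'.1 ∧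
        ¬ (((Sum.inl p : V ⊕ {T // T ∈ F}) = Sum.inl a ∨ (Sum.inl p : V ⊕ {T // T ∈ F}) = Sum.inl b ∨
          (Sum.inl p : V ⊕ {T // T ∈ F}) = Sum.inl c) ∧
          ((Sum.inr T' : V ⊕ {T // T ∈ F}) = Sum.inl a ∨
          (Sum.inr T' : V ⊕ {T // T ∈ F}) = Sum.inl b ∨
          (Sum.inr T' : V ⊕ {T // T ∈ F}) = Sum.inl c))
      simp
    · change False ↔
        ((Sum.inr T : V ⊕ {T // T ∈ F}) = Sum.inl a ∨ (Sum.inr T : V ⊕ {T // T ∈ F}) = Sum.inl b ∨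
          (Sum.inr T : V ⊕ {T // T ∈ F}) = Sum.inl c)
      simp
    · change q ∈ T.1 ↔ q ∈ T.1 ∧
        ¬ (((Sum.inr T : V ⊕ {T // T ∈ F}) = Sum.inl a ∨
          (Sum.inr T : V ⊕ {T // T ∈ F}) = Sum.inl b ∨
          (Sum.inr T : V ⊕ {T // T ∈ F}) = Sum.inl c) ∧
          ((Sum.inl q : V ⊕ {T // T ∈ F}) = Sum.inl a ∨ (Sum.inl q : V ⊕ {T // T ∈ F}) = Sum.inl b ∨
          (Sum.inl q : V ⊕ {T // T ∈ F}) = Sum.inl c))
      simp
    · change False ↔ False ∧ _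
      simp

end NApexGraphs.Fam.Helper4
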